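import Pool.Agent.W559.GF.Stm

/-! Project GF (owner helper559): the atlas of the projective model attached to a submodule. -/

set_option autoImplicit false

open AlgebraicGeometry CategoryTheory Limits Pointwise HomogeneousLocalization

namespace Pool.Agent.W398.GF

open Pool.Agent.H968R2.Quad Pool.Agent.H918R2.Quad Pool.Agent.W559.GF

variable {O : Type} [CommRing O] {F : Type} [Field F] [Algebra O F] (M : Submodule O F)

/-- the map of a chart ring to the field -/
noncomputable def psiG (x : mAlg M) (hx : IsUnit (evalOne M x)) :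
    Away (mPiece M) x →+* F :=
  (IsLocalization.Away.lift (S := Localization.Away x) x (g := evalOne M) hx).comp
    (algebraMap (Away (mPiece M) x) (Localization.Away x))

lemma psi_eq (a : F) (ha : a ∈ M) (ha0 : a ≠ 0) :
    psi M a ha ha0 = psiG M (tElt M a ha) (by rw [evalOne_tElt]; exact IsUnit.mk0 _ ha0) := rfl

lemma psiG_comp {f g x : mAlg M} {e : ℕ} (hg : g ∈ mPiece M e) (hx : x = f * g)
    (hxu : IsUnit (evalOne M x)) (hfu : IsUnit (evalOne M f)) :
    (psiG M x hxu).comp (awayMap (mPiece M) hg hx) = psiG M f hfu := by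
  ext z
  have h1 : (psiG M x hxu).comp (awayMap (mPiece M) hg hx) z =
      IsLocalization.Away.lift (S := Localization.Away x) x (g := evalOne M) hxu
        (awayMap (mPiece M) hg hx z).val := rfl
  have h2 : psiG M f hfu z =
      IsLocalization.Away.lift (S := Localization.Away f) f (g := evalOne M) hfu z.val := rfl
  rw [h1, h2, val_awayMap]
  have h3 : (IsLocalization.Away.lift (S := Localization.Away x) x (g := evalOne M) hxu).comp
      (Localization.awayLift (algebraMap (mAlg M) (Localization.Away x)) f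
        (isUnit_of_dvd_unit (map_dvd _ ⟨_, hx⟩) (IsLocalization.Away.algebraMap_isUnit x))) =
      IsLocalization.Away.lift (S := Localization.Away f) f (g := evalOne M) hfu := by
    refine IsLocalization.ringHom_ext (Submonoid.powers f) ?_
    ext y
    simp only [RingHom.comp_apply, IsLocalization.Away.lift_eq, Localization.awayLift]
  exact congrArg (fun φ => φ z.val) h3

lemma psiG_zero {x : mAlg M} (hxu : IsUnit (evalOne M x)) (r : mPiece M 0) :
    psiG M x hxu (fromZeroRingHom (mPiece M) _ r) = evalOne M (r : mAlg M) := by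
  have h1 : psiG M x hxu (fromZeroRingHom (mPiece M) _ r) =
      IsLocalization.Away.lift (S := Localization.Away x) x (g := evalOne M) hxu
        (algebraMap (mAlg M) (Localization.Away x) r) := rfl
  rw [h1, IsLocalization.Away.lift_eq]

/-- the generic point in the chart of `a` -/
noncomputable def eta (a : F) (ha : a ∈ M) (ha0 : a ≠ 0) : Spec (CommRingCat.of F) ⟶ model M :=
  Spec.map (CommRingCat.ofHom (psi M a ha ha0)) ≫ modelChart M a ha

lemma isUnit_mul {a b : F} (ha : a ∈ M) (hb : b ∈ M) (ha0 : a ≠ 0) (hb0 : b ≠ 0) :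
    IsUnit (evalOne M (tElt M a ha * tElt M b hb)) := by
  rw [map_mul, evalOne_tElt, evalOne_tElt]
  exact IsUnit.mk0 _ (mul_ne_zero ha0 hb0)

lemma eta_eq_mul {a b : F} (ha : a ∈ M) (hb : b ∈ M) (ha0 : a ≠ 0) (hb0 : b ≠ 0) :
    eta M a ha ha0 = Spec.map (CommRingCat.ofHom
      (psiG M (tElt M a ha * tElt M b hb) (isUnit_mul M ha hb ha0 hb0))) ≫
      Proj.awayι (mPiece M) (tElt M a ha * tElt M b hb)
        (SetLike.mul_mem_graded (tElt_mem M a ha) (tElt_mem M b hb)) (by norm_num) := by
  unfold eta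
  rw [psi_eq, ← psiG_comp M (tElt_mem M b hb) rfl (isUnit_mul M ha hb ha0 hb0),
    CommRingCat.ofHom_comp, Spec.map_comp, Category.assoc]
  congr 1
  exact Proj.SpecMap_awayMap_awayι (mPiece M) (tElt_mem M a ha) one_pos (tElt_mem M b hb) rfl

lemma eta_eq {a b : F} (ha : a ∈ M) (hb : b ∈ M) (ha0 : a ≠ 0) (hb0 : b ≠ 0) :
    eta M a ha ha0 = eta M b hb hb0 := by
  rw [eta_eq_mul M ha hb ha0 hb0]
  unfold eta
  have hx : tElt M a ha * tElt M b hb = tElt M b hb * tElt M a ha := mul_comm _ _
  rw [psi_eq M b hb hb0, ← psiG_comp M (tElt_mem M a ha) hx (isUnit_mul M ha hb ha0 hb0),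
    CommRingCat.ofHom_comp, Spec.map_comp, Category.assoc]
  congr 1
  exact (Proj.SpecMap_awayMap_awayι (mPiece M) (tElt_mem M b hb) one_pos (tElt_mem M a ha) hx).symm

lemma chart_modelMap (a : F) (ha : a ∈ M) :
    modelChart M a ha ≫ modelMap M =
      Spec.map (CommRingCat.ofHom (fromZeroRingHom (mPiece M) (Submonoid.powers (tElt M a ha)))) ≫
        Spec.map (toZeroHom M) := by
  show Proj.awayι (mPiece M) (tElt M a ha) (tElt_mem M a ha) one_pos ≫
    (Proj.toSpecZero (mPiece M) ≫ Spec.map (toZeroHom M)) = _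
  rw [← Category.assoc, Proj.awayι_toSpecZero]

lemma eta_modelMap (a : F) (ha : a ∈ M) (ha0 : a ≠ 0) :
    eta M a ha ha0 ≫ modelMap M = Spec.map (CommRingCat.ofHom (algebraMap O F)) := by
  unfold eta
  rw [Category.assoc, chart_modelMap, ← Spec.map_comp, ← Spec.map_comp]
  congr 1
  ext r
  show psi M a ha ha0 (fromZeroRingHom (mPiece M) _ (toZero M r)) = algebraMap O F r
  rw [psi_eq, psiG_zero]
  exact evalOne_mMon M 0 (algebraMap O F r) (by rw [pow_zero]; exact Submodule.mem_one.2 ⟨r, rfl⟩)

/-- the chart ring as a subring -/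
noncomputable def chEquiv (a : F) (ha : a ∈ M) (ha0 : a ≠ 0) :
    Away (mPiece M) (tElt M a ha) ≃+* (chart O M a).toSubring :=
  RingEquiv.ofBijective
    ((psi M a ha ha0).codRestrict (chart O M a).toSubring
      (fun z => (mem_range_psi M a ha ha0 _).1 ⟨z, rfl⟩))
    ⟨fun x y h => psi_injective M a ha ha0 (congrArg Subtype.val h), fun x => by
      obtain ⟨z, hz⟩ := (mem_range_psi M a ha ha0 x.1).2 x.2
      exact ⟨z, Subtype.ext hz⟩⟩

lemma isChart (a : F) (ha : a ∈ M) (ha0 : a ≠ 0) :
    IsChart (eta M a ha ha0) (chart O M a).toSubring (Proj.basicOpen (mPiece M) (tElt M a ha)) := by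
  let φ : CommRingCat.of (Away (mPiece M) (tElt M a ha)) ⟶ CommRingCat.of (chart O M a).toSubring :=
    CommRingCat.ofHom (chEquiv M a ha ha0 : Away (mPiece M) (tElt M a ha) →+* (chart O M a).toSubring)
  have hφ : IsIso φ := by
    have : φ = (chEquiv M a ha ha0).toCommRingCatIso.hom := rfl
    rw [this]
    infer_instance
  have h3 : IsIso (Spec.map φ) := inferInstance
  refine ⟨Spec.map φ ≫ modelChart M a ha, inferInstance, ?_, ?_⟩
  · rw [← modelChart_opensRange]
    exact Scheme.Hom.opensRange_comp_of_isIso _ _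
  · unfold eta
    rw [← Category.assoc, ← Spec.map_comp]
    rfl

lemma tElt_mem_span {q : Ideal (mAlg M)} {s : Set F} (hs : ∀ x ∈ s, ∃ hx : x ∈ M, tElt M x hx ∈ q)
    {b : F} (hb : b ∈ Submodule.span O s) : ∃ hb : b ∈ M, tElt M b hb ∈ q := by
  induction hb using Submodule.span_induction with
  | mem x hx => exact hs x hx
  | zero =>
    refine ⟨Submodule.zero_mem _, ?_⟩
    have : tElt M 0 (Submodule.zero_mem _) = 0 := by
      apply Subtype.ext
      simp [tElt, mMon]
    rw [this]
    exact zero_mem _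
  | add x y _ _ ihx ihy =>
    obtain ⟨hx, hx'⟩ := ihx
    obtain ⟨hy, hy'⟩ := ihy
    refine ⟨Submodule.add_mem _ hx hy, ?_⟩
    have : tElt M (x + y) (Submodule.add_mem _ hx hy) = tElt M x hx + tElt M y hy := by
      apply Subtype.ext
      simp only [tElt, mMon]
      change _ = Polynomial.monomial 1 x + Polynomial.monomial 1 y
      rw [map_add]
    rw [this]
    exact add_mem hx' hy'
  | smul r x _ ihx =>
    obtain ⟨hx, hx'⟩ := ihx
    refine ⟨Submodule.smul_mem _ _ hx, ?_⟩
    have : tElt M (r • x) (Submodule.smul_mem _ _ hx) = r • tElt M x hx := by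
      apply Subtype.ext
      simp only [tElt, mMon]
      change _ = r • Polynomial.monomial 1 x
      rw [Polynomial.smul_monomial]
    rw [this]
    exact Submodule.smul_of_tower_mem q r hx'

lemma mMon_mem_of_mul {q : Ideal (mAlg M)} {N : Submodule O F} 
    (hN : ∀ b ∈ N, ∃ hb : b ∈ M, tElt M b hb ∈ q) (k : ℕ) {c : F} (hc : c ∈ N * M ^ k) :
    ∃ hc : c ∈ M ^ (k + 1), mMon M (k + 1) c hc ∈ q := by
  induction hc using Submodule.mul_induction_on' with
  | mem_mul_mem m hm c hc =>
    obtain ⟨h1, h2⟩ := hN m hm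
    have h3 : m * c ∈ M ^ (k + 1) := by
      rw [pow_succ']
      exact Submodule.mul_mem_mul h1 hc
    refine ⟨h3, ?_⟩
    have : mMon M (k + 1) (m * c) h3 = tElt M m h1 * mMon M k c hc := by
      apply Subtype.ext
      simp only [mMon, tElt]
      change _ = Polynomial.monomial 1 m * Polynomial.monomial k c
      rw [Polynomial.monomial_mul_monomial, add_comm 1 k]
    rw [this]
    exact Ideal.mul_mem_right _ _ h2
  | add a ha1 c hc iha ihc =>
    obtain ⟨ha2, ha3⟩ := iha
    obtain ⟨hc2, hc3⟩ := ihc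
    refine ⟨Submodule.add_mem _ ha2 hc2, ?_⟩
    have : mMon M (k + 1) (a + c) (Submodule.add_mem _ ha2 hc2) =
        mMon M (k + 1) a ha2 + mMon M (k + 1) c hc2 := by
      apply Subtype.ext
      simp only [mMon]
      change _ = Polynomial.monomial (k + 1) a + Polynomial.monomial (k + 1) c
      rw [map_add]
    rw [this]
    exact Ideal.add_mem _ ha3 hc3

lemma tElt_pow (a : F) (ha : a ∈ M) (n : ℕ) :
    tElt M a ha ^ n = mMon M n (a ^ n) (Submodule.pow_mem_pow M ha n) := by
  apply Subtype.ext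
  simp only [tElt, mMon, SubmonoidClass.mk_pow, Polynomial.monomial_pow, one_mul]

theorem modStm : ModStm := by
  intro O F _ _ _ M T _ m hm hm0 G hG hGm
  obtain ⟨t₀⟩ := ‹Nonempty T›
  refine ⟨eta M (m t₀) (hm t₀) (hm0 t₀), eta_modelMap M _ _ _,
    fun t => Proj.basicOpen (mPiece M) (tElt M (m t) (hm t)), ?_, ?_⟩
  · refine top_le_iff.mp fun x _ ↦ TopologicalSpace.Opens.mem_iSup.mpr ?_
    by_contra! H
    have H2 : ∀ t, tElt M (m t) (hm t) ∈
        ProjectiveSpectrum.asHomogeneousIdeal (𝒜 := mPiece M) x := fun t => by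
      by_contra h
      exact H t h
    set q : Ideal (mAlg M) :=
      (ProjectiveSpectrum.asHomogeneousIdeal (𝒜 := mPiece M) x).toIdeal with hq
    have hp : q.IsPrime := ProjectiveSpectrum.isPrime (𝒜 := mPiece M) x
    have h1 : ∀ b ∈ Submodule.span O (Set.range m), ∃ hb : b ∈ M,
        tElt M b hb ∈ q := by
      intro b hb
      refine tElt_mem_span M ?_ hb
      rintro _ ⟨t, rfl⟩
      exact ⟨hm t, H2 t⟩
    apply not_all_mem M x
    intro b hb
    have hb' : b ∈ Submodule.span O G := by rw [hG]; exact hb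
    obtain ⟨_, h⟩ := tElt_mem_span M (q := q) (s := G) (by
      intro y hy
      have hyM : y ∈ M := by rw [← hG]; exact Submodule.subset_span hy
      refine ⟨hyM, ?_⟩
      obtain ⟨k, hk⟩ := hGm y hy
      obtain ⟨h2, h3⟩ := mMon_mem_of_mul M h1 k hk
      have h4 : tElt M y hyM ^ (k + 1) ∈ q := by
        rw [tElt_pow]
        exact h3
      exact hp.mem_of_pow_mem _ h4) hb'
    exact h
  · intro t
    rw [eta_eq M (hm t₀) (hm t) (hm0 t₀) (hm0 t)]
    exact isChart M (m t) (hm t) (hm0 t)

end Pool.Agent.W398.GF
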